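import Pool.Agent.Y395.SP.Stm

set_option autoImplicit false

/-! From codes to sums (job SP-KRAFT of helper395). -/

namespace Pool.Agent.Y38.SP.KRAFT

open Pool.Agent.H581R2.Splay Pool.Agent.TH49.Spl Pool.Agent.Y395.SP

/-- There are less than `2 ^ (n + 1)` Boolean lists of length at most `n`. -/
lemma card_lists {α : Type} (S : Finset α) (f : α → List Bool) (n : ℕ)
    (hf : Set.InjOn f (S : Set α)) (hl : ∀ x ∈ S, (f x).length ≤ n) : S.card ≤ 2 ^ (n + 1) := by
  classical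
  have h1 : S.image f ⊆ (Finset.range (n + 1)).biUnion
      (fun j => (Finset.univ : Finset (Fin j → Bool)).image List.ofFn) := by
    intro b hb
    obtain ⟨x, hx, rfl⟩ := Finset.mem_image.1 hb
    refine Finset.mem_biUnion.2 ⟨(f x).length, Finset.mem_range.2 (Nat.lt_succ_of_le (hl x hx)),
      Finset.mem_image.2 ⟨fun i => (f x).get i, Finset.mem_univ _, ?_⟩⟩
    exact List.ofFn_get _
  have h2 : S.card = (S.image f).card := (Finset.card_image_of_injOn hf).symm
  rw [h2]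
  refine (Finset.card_le_card h1).trans (Finset.card_biUnion_le.trans ?_)
  have h3 : ∑ j ∈ Finset.range (n + 1),
      ((Finset.univ : Finset (Fin j → Bool)).image List.ofFn).card ≤
      ∑ j ∈ Finset.range (n + 1), 2 ^ j := by
    refine Finset.sum_le_sum fun j _ => Finset.card_image_le.trans ?_
    simp
  refine h3.trans ?_
  have h4 : ∀ N : ℕ, ∑ j ∈ Finset.range N, 2 ^ j ≤ 2 ^ N := by
    intro N
    induction N with
    | zero => simp
    | succ N ih =>
      rw [Finset.sum_range_succ, pow_succ]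
      omega
  exact h4 (n + 1)

/-- The sum of the weights. -/
lemma kraft_sum {α : Type} (S : Finset α) (W : α → ℕ) (f : α → List Bool) (k : ℕ)
    (hf : Set.InjOn f (S : Set α)) (hl : ∀ x ∈ S, (f x).length ≤ 9 * W x + k) :
    ∑ x ∈ S, (1 / 2 : ℝ) ^ (10 * W x + k + 2) ≤ 1 := by
  classical
  rw [Finset.sum_comp (fun w : ℕ => (1 / 2 : ℝ) ^ (10 * w + k + 2)) W]
  have h1 : ∀ w ∈ S.image W, ({a ∈ S | W a = w} : Finset α).card •
      (1 / 2 : ℝ) ^ (10 * w + k + 2) ≤ (1 : ℝ) / 2 / 2 ^ w := by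
    intro w _
    have h2 : ({a ∈ S | W a = w} : Finset α).card ≤ 2 ^ (9 * w + k + 1) := by
      refine card_lists _ f (9 * w + k) (hf.mono ?_) ?_
      · intro x hx
        exact (Finset.mem_filter.1 hx).1
      · intro x hx
        have h3 := Finset.mem_filter.1 hx
        have h4 := hl x h3.1
        rw [h3.2] at h4
        exact h4
    rw [nsmul_eq_mul]
    have h3 : ((({a ∈ S | W a = w} : Finset α).card : ℕ) : ℝ) ≤ (2 : ℝ) ^ (9 * w + k + 1) := by
      exact_mod_cast h2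
    refine (mul_le_mul_of_nonneg_right h3 (by positivity)).trans (le_of_eq ?_)
    have h4 : 10 * w + k + 2 = (9 * w + k + 1) + (w + 1) := by ring
    rw [h4, pow_add (1 / 2 : ℝ), ← mul_assoc, ← mul_pow]
    norm_num
    rw [pow_succ, div_pow, one_pow, mul_comm, div_mul_div_comm, one_mul, div_div]
  refine (Finset.sum_le_sum h1).trans ?_
  exact sum_le_hasSum _ (fun w _ => by positivity) (hasSum_geometric_two' (1 : ℝ))

lemma exec_ex (T : Tr) (X : List ℕ) : ∃ c, Exec T X c := by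
  induction X with
  | nil => exact ⟨0, Exec.nil T⟩
  | cons x X ih =>
    obtain ⟨c, hc⟩ := ih
    exact ⟨_, Exec.cons T T x X 0 c (RotN.refl T) hc⟩

lemma tree_ex (Ks : List ℕ) : ∃ T : Tr, keys T = Ks := by
  induction Ks with
  | nil => exact ⟨Tr.nil, rfl⟩
  | cons a Ks ih =>
    obtain ⟨T, hT⟩ := ih
    refine ⟨Tr.node a Tr.nil T, ?_⟩
    simp [keys, hT]

theorem kraft1 (hS : SSim) (hC : SCode1) : SKraft1 := by
  intro m T hT
  obtain ⟨f, hf1, hf2⟩ := hC m T
  have key : ∀ X ∈ seqs (keys T).toFinset m, ∃ w ≤ opt T (List.ofFn X), Lazy T (List.ofFn X) w := by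
    intro X hX
    have h1 : Exec T (List.ofFn X) (opt T (List.ofFn X)) := by
      have : opt T (List.ofFn X) ∈ {c : ℕ | Exec T (List.ofFn X) c} :=
        Nat.sInf_mem (exec_ex T (List.ofFn X))
      exact this
    obtain ⟨w, hw, hw'⟩ := hS (List.ofFn X) 0 _ T T hT (RotN.refl T) h1 (by
      intro x hx
      obtain ⟨i, rfl⟩ := (List.mem_ofFn' X x).1 hx
      exact List.mem_toFinset.1 (Fintype.mem_piFinset.1 hX i))
    exact ⟨w, hw, hw'⟩
  have h2 := kraft_sum (seqs (keys T).toFinset m) (fun X => opt T (List.ofFn X))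
    (fun X => f (List.ofFn X)) 0 ?_ ?_
  · exact h2
  · intro X hX Y hY hXY
    obtain ⟨w, _, hw⟩ := key X hX
    obtain ⟨w', _, hw'⟩ := key Y hY
    exact List.ofFn_injective (hf2 ⟨List.length_ofFn, w, hw⟩ ⟨List.length_ofFn, w', hw'⟩ hXY)
  · intro X hX
    obtain ⟨w, hw, hw'⟩ := key X hX
    have := hf1 (List.ofFn X) w List.length_ofFn hw'
    show (f (List.ofFn X)).length ≤ 9 * opt T (List.ofFn X) + 0
    omega

theorem kraft2 (hS : SSim) (hC : SCode2) : SKraft2 := by
  intro m Ks hKs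
  obtain ⟨f, hf1, hf2⟩ := hC m Ks
  have key : ∀ X ∈ seqs Ks.toFinset m, ∃ (T : Tr) (w : ℕ), keys T = Ks ∧
      w ≤ optAny Ks (List.ofFn X) ∧ Lazy T (List.ofFn X) w := by
    intro X hX
    have h1 : optAny Ks (List.ofFn X) ∈ {c : ℕ | ∃ T : Tr, keys T = Ks ∧ Exec T (List.ofFn X) c} := by
      refine Nat.sInf_mem ?_
      obtain ⟨T, hT⟩ := tree_ex Ks
      obtain ⟨c, hc⟩ := exec_ex T (List.ofFn X)
      exact ⟨c, T, hT, hc⟩
    obtain ⟨T, hT, hE⟩ := h1
    obtain ⟨w, hw, hw'⟩ := hS (List.ofFn X) 0 _ T T (by rw [IsBST, hT]; exact hKs)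
      (RotN.refl T) hE (by
      intro x hx
      obtain ⟨i, rfl⟩ := (List.mem_ofFn' X x).1 hx
      rw [hT]
      exact List.mem_toFinset.1 (Fintype.mem_piFinset.1 hX i))
    exact ⟨T, w, hT, hw, hw'⟩
  have h2 := kraft_sum (seqs Ks.toFinset m) (fun X => optAny Ks (List.ofFn X))
    (fun X => f (List.ofFn X)) (2 * Ks.length + 1) ?_ ?_
  · exact h2
  · intro X hX Y hY hXY
    obtain ⟨T, w, hT, _, hw⟩ := key X hX
    obtain ⟨T', w', hT', _, hw'⟩ := key Y hY
    exact List.ofFn_injective (hf2 ⟨List.length_ofFn, T, w, hT, hw⟩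
      ⟨List.length_ofFn, T', w', hT', hw'⟩ hXY)
  · intro X hX
    obtain ⟨T, w, hT, hw, hw'⟩ := key X hX
    have := hf1 (List.ofFn X) T w List.length_ofFn hT hw'
    show (f (List.ofFn X)).length ≤ 9 * optAny Ks (List.ofFn X) + (2 * Ks.length + 1)
    omega

end Pool.Agent.Y38.SP.KRAFT
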